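import Pool.Agent.Helper578.JD.Core
import Pool.Agent.Helper750.CT.ThK

set_option autoImplicit false

/-!
Complete theories with a computable model and the degree `0^(ω)`: definitions.
-/

namespace Pool.Agent.H646R2.OM

open Pool.Agent.Helper750.DC Pool.Agent.Helper750.CT
open Pool.Agent.Helper578.JD

/-- The `n`-th Turing jump of the empty set. -/
def zeroJ : ℕ → Set ℕ
  | 0 => ∅
  | n + 1 => jump (zeroJ n)

/-- The set `{⟨n, x⟩ : x ∈ ∅^(n)}`, whose degree is `0^(ω)`. -/
def zeroOmega : Set ℕ := {z | z.unpair.2 ∈ zeroJ z.unpair.1}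

/-- All relation and function symbols of the formula are symbols of the language `L` and are used
with the right number of arguments. -/
def InL (L : Lang) : Fml → Prop
  | .rel i vs => L.rel i = some vs.length
  | .fn i vs _ => L.fn i = some vs.length
  | .eq _ _ => True
  | .not φ => InL L φ
  | .and φ ψ => InL L φ ∧ InL L ψ
  | .ex _ φ => InL L φ

/-- `T` is a complete theory in the language `L`: a set of sentences of `L` which, for every
sentence `φ` of `L`, contains exactly one of `φ` and `¬ φ`. -/
def IsCompleteIn (L : Lang) (T : Set Fml) : Prop :=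
  (∀ φ ∈ T, IsSent φ ∧ InL L φ) ∧ ∀ φ, IsSent φ → InL L φ → (φ ∉ T ↔ Fml.not φ ∈ T)

end Pool.Agent.H646R2.OM
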