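import Pool.Agent.H646R2.OM.Sat

set_option autoImplicit false

/-!
The diagonal construction.
-/

namespace Pool.Agent.H646R2.OM

open Pool.Agent.Helper750.DC Pool.Agent.Helper750.CT
open Pool.Agent.Helper578.JD Pool.Agent.Helper578.JD.Oracle
open Encodable

/-- the information `c` is correct for all sets with initial segment `σ` -/
def OkS (σ : List Bool) (c : Info) : Prop :=
  (∀ x ∈ c.1, σ[x]? = some true) ∧ ∀ x ∈ c.2, σ[x]? = some false

section
variable {α : Type*} [Primcodable α]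

theorem OkS_re {f : α → List Bool} {g : α → Info} (hf : Computable f) (hg : Computable g) :
    REPred fun x => OkS (f x) (g x) := by
  unfold OkS
  refine RE.and ?_ ?_
  · refine RE.all_mem (p := fun (x : α) (i : ℕ) => (f x)[i]? = some true) ?_ (by fun_prop)
    exact RE.eq (by fun_prop) (by fun_prop)
  · refine RE.all_mem (p := fun (x : α) (i : ℕ) => (f x)[i]? = some false) ?_ (by fun_prop)
    exact RE.eq (by fun_prop) (by fun_prop)

theorem prefix_re {f g : α → List Bool} (hf : Computable f) (hg : Computable g) :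
    REPred fun x => f x <+: g x := by
  have h : REPred fun x => ∃ t : List Bool, f x ++ t = g x :=
    RE.ex (p := fun (x : α) (t : List Bool) => f x ++ t = g x)
      (RE.eq (by fun_prop) (by fun_prop))
  exact h
end

/-- a witness for a split -/
abbrev Wit := (List Bool × List Bool) × (ℕ × (Info × Info))

/-- `w` is a split above `σ` for the pair of reductions coded by `k` -/
def Split (x : (ℕ × List Bool) × Wit) : Prop :=
  (x.1.2 <+: x.2.1.1 ∧ x.1.2 <+: x.2.1.2) ∧
  (W x.1.1.unpair.2.unpair.1 (encode (x.2.2.1, x.2.2.2.1)) ∧ OkS x.2.1.1 x.2.2.2.1) ∧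
  (W x.1.1.unpair.2.unpair.2 (encode (x.2.2.1, x.2.2.2.2)) ∧ OkS x.2.1.2 x.2.2.2.2)

theorem Split_re : REPred Split := by
  unfold Split
  refine RE.and (RE.and (prefix_re (by fun_prop) (by fun_prop))
    (prefix_re (by fun_prop) (by fun_prop))) (RE.and (RE.and ?_ (OkS_re (by fun_prop)
    (by fun_prop))) (RE.and ?_ (OkS_re (by fun_prop) (by fun_prop))))
  · exact RE.comp W_re (f := fun x : (ℕ × List Bool) × Wit =>
      (x.1.1.unpair.2.unpair.1, encode (x.2.2.1, x.2.2.2.1))) (by fun_prop)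
  · exact RE.comp W_re (f := fun x : (ℕ × List Bool) × Wit =>
      (x.1.1.unpair.2.unpair.2, encode (x.2.2.1, x.2.2.2.2))) (by fun_prop)

/-- a computable search for splits -/
theorem exists_search : ∃ (B : ℕ × List Bool → ℕ → Bool) (wt : ℕ → Wit),
    (Computable fun x : (ℕ × List Bool) × ℕ => B x.1 x.2) ∧ Computable wt ∧
    (∀ x m, B x m = true → Split (x, wt m)) ∧ ∀ x w, Split (x, w) → ∃ m, B x m = true := by
  obtain ⟨q, hq, h⟩ := RE.re_iff.1 Split_re
  have hq' : Computable fun y : ((ℕ × List Bool) × Wit) × ℕ => q y.1 y.2 := hq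
  let wt : ℕ → Wit := fun m => (decode (α := Wit) m.unpair.1).getD (([], []), (0, (([], []), ([], []))))
  have hwt : Computable wt := Computable.option_getD (by fun_prop) (Computable.const _)
  refine ⟨fun x m => q (x, wt m) m.unpair.2, wt, ?_, hwt, ?_, ?_⟩
  · exact hq'.comp (f := fun y : ((ℕ × List Bool) × Wit) × ℕ => q y.1 y.2)
      (g := fun x : (ℕ × List Bool) × ℕ => ((x.1, wt x.2), x.2.unpair.2)) (by fun_prop)
  · intro x m hm
    exact (h _).2 ⟨_, hm⟩
  · intro x w hw
    obtain ⟨n, hn⟩ := (h _).1 hw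
    refine ⟨Nat.pair (encode w) n, ?_⟩
    have : wt (Nat.pair (encode w) n) = w := by
      simp only [wt, Nat.unpair_pair, encodek, Option.getD_some]
    simp only [this, Nat.unpair_pair]
    exact hn

section main

variable (B : ℕ × List Bool → ℕ → Bool) (wt : ℕ → Wit)

open Classical in
/-- the extension by one bit, ensuring that the constructed set is different from `W k` -/
noncomputable def ap (k : ℕ) (τ : List Bool) : List Bool := τ ++ [decide (¬ W k τ.length)]

open Classical in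
/-- one step of the construction -/
noncomputable def stp (k : ℕ) (σ : List Bool) : List Bool :=
  if h : ∃ m, B (k, σ) m = true then
    (if Fam k.unpair.1 (wt (Nat.find h)).2.1 then ap k (wt (Nat.find h)).1.2
      else ap k (wt (Nat.find h)).1.1)
  else ap k σ

/-- the construction -/
noncomputable def sg : ℕ → List Bool
  | 0 => []
  | k + 1 => stp B wt k (sg k)

/-- the constructed set -/
def DD : Set ℕ := {x | ∃ k, (sg B wt k)[x]? = some true}

theorem ap_rel {α : Type*} [Primcodable α] {f : α → ℕ} {g h : α → List Bool}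
    (hf : Computable f) (hg : Computable g) (hh : Computable h) :
    REIn zeroOmega fun x => h x = ap (f x) (g x) := by
  have h1 : REPred fun x : α => W (f x) (g x).length :=
    RE.comp W_re (f := fun x : α => (f x, (g x).length)) (by fun_prop)
  have h2 : REIn zeroOmega fun x : α => (h x = g x ++ [true] ∧ ¬ W (f x) (g x).length) ∨
      (h x = g x ++ [false] ∧ W (f x) (g x).length) :=
    REIn.or (REIn.and (REIn.of_re (RE.eq (by fun_prop) (by fun_prop))) (re_comp h1))
      (REIn.and (REIn.of_re (RE.eq (by fun_prop) (by fun_prop))) (REIn.of_re h1))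
  refine h2.of_eq fun x => ?_
  unfold ap
  by_cases hx : W (f x) (g x).length <;> simp [hx]

theorem stp_rel (hB : Computable fun x : (ℕ × List Bool) × ℕ => B x.1 x.2) (hwt : Computable wt) :
    REIn zeroOmega fun x : (ℕ × List Bool) × List Bool => x.2 = stp B wt x.1.1 x.1.2 := by
  obtain ⟨hF, hF'⟩ := Fam_comp
  have hBc : ∀ {α : Type} [Primcodable α] {u : α → ℕ} {v : α → List Bool} {w : α → ℕ},
      Computable u → Computable v → Computable w → Computable fun a => B (u a, v a) (w a) :=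
    fun {α} _ {u v w} hu hv hw => hB.comp (f := fun x : (ℕ × List Bool) × ℕ => B x.1 x.2)
      (g := fun a => ((u a, v a), w a)) (by fun_prop)
  have h0 : REPred fun x : (ℕ × List Bool) × List Bool => ∃ m, B x.1 m = true :=
    RE.ex (p := fun (x : (ℕ × List Bool) × List Bool) (m : ℕ) => B x.1 m = true)
      (RE.eq (hBc (u := fun x : ((ℕ × List Bool) × List Bool) × ℕ => x.1.1.1)
        (v := fun x => x.1.1.2) (w := fun x => x.2) (by fun_prop) (by fun_prop) (by fun_prop))
        (by fun_prop))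
  have h1 : REIn zeroOmega fun x : (ℕ × List Bool) × List Bool =>
      (∃ m, (B x.1 m = true ∧ ∀ i < m, B x.1 i = false) ∧
        ((Fam x.1.1.unpair.1 (wt m).2.1 ∧ x.2 = ap x.1.1 (wt m).1.2) ∨
          (¬ Fam x.1.1.unpair.1 (wt m).2.1 ∧ x.2 = ap x.1.1 (wt m).1.1))) ∨
      ((¬ ∃ m, B x.1 m = true) ∧ x.2 = ap x.1.1 x.1.2) := by
    refine REIn.or ?_ (REIn.and (re_comp h0) (ap_rel (by fun_prop) (by fun_prop) (by fun_prop)))
    refine REIn.ex (S := fun (x : (ℕ × List Bool) × List Bool) (m : ℕ) =>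
      (B x.1 m = true ∧ ∀ i < m, B x.1 i = false) ∧
        ((Fam x.1.1.unpair.1 (wt m).2.1 ∧ x.2 = ap x.1.1 (wt m).1.2) ∨
          (¬ Fam x.1.1.unpair.1 (wt m).2.1 ∧ x.2 = ap x.1.1 (wt m).1.1))) ?_
    refine REIn.and (REIn.of_re (RE.and ?_ ?_)) (REIn.or (REIn.and ?_ ?_) (REIn.and ?_ ?_))
    · exact RE.eq (hBc (by fun_prop) (by fun_prop) (by fun_prop)) (by fun_prop)
    · refine RE.all_lt (p := fun (x : ((ℕ × List Bool) × List Bool) × ℕ) (i : ℕ) =>
        B x.1.1 i = false) ?_ (by fun_prop)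
      exact RE.eq (hBc (by fun_prop) (by fun_prop) (by fun_prop)) (by fun_prop)
    · exact hF.comp (f := fun x : ((ℕ × List Bool) × List Bool) × ℕ =>
        (x.1.1.1.unpair.1, (wt x.2).2.1)) (by fun_prop)
    · exact ap_rel (by fun_prop) (by fun_prop) (by fun_prop)
    · exact hF'.comp (f := fun x : ((ℕ × List Bool) × List Bool) × ℕ =>
        (x.1.1.1.unpair.1, (wt x.2).2.1)) (by fun_prop)
    · exact ap_rel (by fun_prop) (by fun_prop) (by fun_prop)
  refine h1.of_eq fun x => ?_
  unfold stp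
  by_cases h : ∃ m, B x.1 m = true
  · have h' : ∃ m, B (x.1.1, x.1.2) m = true := h
    rw [dif_pos h']
    constructor
    · rintro (⟨m, ⟨hm1, hm2⟩, hm3⟩ | ⟨h2, -⟩)
      · have hmf : Nat.find h' = m := by
          rw [Nat.find_eq_iff]
          exact ⟨hm1, fun i hi => by
            have := hm2 i hi
            intro hcon
            rw [show (x.1.1, x.1.2) = x.1 from rfl, this] at hcon
            simp at hcon⟩
        rw [hmf]
        rcases hm3 with ⟨ha, hb⟩ | ⟨ha, hb⟩
        · rw [if_pos ha]; exact hb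
        · rw [if_neg ha]; exact hb
      · exact absurd h h2
    · intro hx
      refine Or.inl ⟨Nat.find h', ⟨Nat.find_spec h', fun i hi => ?_⟩, ?_⟩
      · have := Nat.find_min h' hi
        simpa using this
      · by_cases ha : Fam x.1.1.unpair.1 (wt (Nat.find h')).2.1
        · rw [if_pos ha] at hx
          exact Or.inl ⟨ha, hx⟩
        · rw [if_neg ha] at hx
          exact Or.inr ⟨ha, hx⟩
  · have h' : ¬ ∃ m, B (x.1.1, x.1.2) m = true := h
    rw [dif_neg h']
    constructor
    · rintro (⟨m, ⟨hm1, hm2⟩, hm3⟩ | ⟨_, h2⟩)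
      · exact absurd ⟨m, hm1⟩ h
      · exact h2
    · intro hx
      exact Or.inr ⟨h, hx⟩

theorem sg_rel (hB : Computable fun x : (ℕ × List Bool) × ℕ => B x.1 x.2) (hwt : Computable wt) :
    REIn zeroOmega fun x : ℕ × List Bool => x.2 = sg B wt x.1 := by
  have h1 : REIn zeroOmega fun x : ℕ × List Bool => ∃ h : List (List Bool),
      (h[0]? = some [] ∧ h[x.1]? = some x.2) ∧ ∀ i < x.1, ∃ uv : List Bool × List Bool,
        (h[i]? = some uv.1 ∧ h[i + 1]? = some uv.2) ∧ uv.2 = stp B wt i uv.1 := by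
    refine REIn.ex (S := fun (x : ℕ × List Bool) (h : List (List Bool)) =>
      (h[0]? = some [] ∧ h[x.1]? = some x.2) ∧ ∀ i < x.1, ∃ uv : List Bool × List Bool,
        (h[i]? = some uv.1 ∧ h[i + 1]? = some uv.2) ∧ uv.2 = stp B wt i uv.1) ?_
    refine REIn.and (REIn.of_re (RE.and (RE.eq (by fun_prop) (by fun_prop))
      (RE.eq (by fun_prop) (by fun_prop)))) ?_
    refine REIn.all_lt (S := fun (x : (ℕ × List Bool) × List (List Bool)) (i : ℕ) =>
      ∃ uv : List Bool × List Bool,
        (x.2[i]? = some uv.1 ∧ x.2[i + 1]? = some uv.2) ∧ uv.2 = stp B wt i uv.1) ?_ (by fun_prop)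
    refine REIn.ex (S := fun (x : ((ℕ × List Bool) × List (List Bool)) × ℕ)
      (uv : List Bool × List Bool) =>
        (x.1.2[x.2]? = some uv.1 ∧ x.1.2[x.2 + 1]? = some uv.2) ∧ uv.2 = stp B wt x.2 uv.1) ?_
    refine REIn.and (REIn.of_re (RE.and (RE.eq (by fun_prop) (by fun_prop))
      (RE.eq (by fun_prop) (by fun_prop)))) ?_
    exact (stp_rel B wt hB hwt).comp
      (f := fun x : (((ℕ × List Bool) × List (List Bool)) × ℕ) × (List Bool × List Bool) =>
        ((x.1.2, x.2.1), x.2.2)) (by fun_prop)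
  refine h1.of_eq fun x => ?_
  constructor
  · rintro ⟨h, ⟨h2, h3⟩, h4⟩
    have key : ∀ i ≤ x.1, h[i]? = some (sg B wt i) := by
      intro i
      induction i with
      | zero => intro _; exact h2
      | succ i ih =>
        intro hi
        obtain ⟨uv, ⟨h5, h6⟩, h7⟩ := h4 i (by omega)
        rw [ih (by omega), Option.some.injEq] at h5
        rw [h6, h7, ← h5]
        rfl
    rw [key _ le_rfl, Option.some.injEq] at h3
    exact h3.symm
  · intro hx
    refine ⟨(List.range (x.1 + 1)).map (sg B wt), ⟨?_, ?_⟩, fun i hi =>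
      ⟨(sg B wt i, sg B wt (i + 1)), ⟨?_, ?_⟩, rfl⟩⟩
    · rw [List.getElem?_map, List.getElem?_range (by omega)]; rfl
    · rw [List.getElem?_map, List.getElem?_range (by omega), hx]; rfl
    · rw [List.getElem?_map, List.getElem?_range (by omega)]; rfl
    · rw [List.getElem?_map, List.getElem?_range (by omega)]; rfl

variable {B wt}

theorem ap_prefix (k : ℕ) (τ : List Bool) : τ <+: ap k τ := List.prefix_append _ _

theorem stp_prefix (hs : ∀ x m, B x m = true → Split (x, wt m)) (k : ℕ) (σ : List Bool) :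
    σ <+: stp B wt k σ := by
  unfold stp
  split_ifs with h1 h2
  · exact (hs _ _ (Nat.find_spec h1)).1.2.trans (ap_prefix _ _)
  · exact (hs _ _ (Nat.find_spec h1)).1.1.trans (ap_prefix _ _)
  · exact ap_prefix _ _

theorem stp_ap (hs : ∀ x m, B x m = true → Split (x, wt m)) (k : ℕ) (σ : List Bool) :
    ∃ τ, σ <+: τ ∧ stp B wt k σ = ap k τ := by
  unfold stp
  split_ifs with h1 h2
  · exact ⟨_, (hs _ _ (Nat.find_spec h1)).1.2, rfl⟩
  · exact ⟨_, (hs _ _ (Nat.find_spec h1)).1.1, rfl⟩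
  · exact ⟨_, List.prefix_rfl, rfl⟩

theorem sg_mono (hs : ∀ x m, B x m = true → Split (x, wt m)) {k l : ℕ} (h : k ≤ l) :
    sg B wt k <+: sg B wt l := by
  induction l, h using Nat.le_induction with
  | base => exact List.prefix_rfl
  | succ l _ ih => exact ih.trans (stp_prefix hs _ _)

theorem sg_length (hs : ∀ x m, B x m = true → Split (x, wt m)) (k : ℕ) :
    k ≤ (sg B wt k).length := by
  induction k with
  | zero => exact Nat.zero_le _
  | succ k ih =>
    obtain ⟨τ, h1, h2⟩ := stp_ap hs k (sg B wt k)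
    have h3 : (sg B wt (k + 1)).length = τ.length + 1 := by
      rw [show sg B wt (k + 1) = stp B wt k (sg B wt k) from rfl, h2]
      simp [ap]
    have h4 := h1.length_le
    omega

theorem prefix_getElem? {σ τ : List Bool} (h : σ <+: τ) {x : ℕ} {b : Bool}
    (hx : σ[x]? = some b) : τ[x]? = some b := by
  obtain ⟨t, rfl⟩ := h
  have hlt : x < σ.length := by
    by_contra hcon
    rw [List.getElem?_eq_none (by omega)] at hx
    simp at hx
  rw [List.getElem?_append_left hlt]
  exact hx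

theorem sg_unique (hs : ∀ x m, B x m = true → Split (x, wt m)) {k l x : ℕ} {a b : Bool}
    (h1 : (sg B wt k)[x]? = some a) (h2 : (sg B wt l)[x]? = some b) : a = b := by
  have h3 := prefix_getElem? (sg_mono hs (le_max_left k l)) h1
  have h4 := prefix_getElem? (sg_mono hs (le_max_right k l)) h2
  rw [h3] at h4
  simpa using h4

theorem mem_DD (hs : ∀ x m, B x m = true → Split (x, wt m)) {k x : ℕ} {b : Bool}
    (h : (sg B wt k)[x]? = some b) : x ∈ DD B wt ↔ b = true := by
  constructor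
  · rintro ⟨l, hl⟩
    exact sg_unique hs h hl
  · rintro rfl
    exact ⟨k, h⟩

theorem ok_of_okS (hs : ∀ x m, B x m = true → Split (x, wt m)) {k : ℕ} {c : Info}
    (h : OkS (sg B wt k) c) : Ok (DD B wt) c := by
  constructor
  · intro x hx
    exact (mem_DD hs (h.1 x hx)).2 rfl
  · intro x hx hcon
    have := (mem_DD hs (h.2 x hx)).1 hcon
    simp at this

theorem okS_of_ok (hs : ∀ x m, B x m = true → Split (x, wt m)) {c : Info}
    (h : Ok (DD B wt) c) : ∃ k0, ∀ k, k0 ≤ k → OkS (sg B wt k) c := by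
  obtain ⟨N, hN⟩ : ∃ N, ∀ x ∈ c.1 ++ c.2, x < N := by
    refine ⟨(c.1 ++ c.2).sum + 1, fun x hx => ?_⟩
    have := List.single_le_sum (l := c.1 ++ c.2) (fun _ _ => Nat.zero_le _) x hx
    omega
  have hget : ∀ k, N ≤ k → ∀ x ∈ c.1 ++ c.2, ∃ b, (sg B wt k)[x]? = some b := by
    intro k hk x hx
    have h1 := hN x hx
    have h2 := sg_length hs k
    exact ⟨_, List.getElem?_eq_getElem (by omega)⟩
  refine ⟨N, fun k hk => ⟨fun x hx => ?_, fun x hx => ?_⟩⟩
  · obtain ⟨b, hb⟩ := hget k hk x (List.mem_append_left _ hx)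
    rw [hb, (mem_DD hs hb).1 (h.1 x hx)]
  · obtain ⟨b, hb⟩ := hget k hk x (List.mem_append_right _ hx)
    rw [hb]
    cases b
    · rfl
    · exact absurd ((mem_DD hs hb).2 rfl) (h.2 x hx)

theorem OkS_mono {σ τ : List Bool} (h : σ <+: τ) {c : Info} (hc : OkS σ c) : OkS τ c :=
  ⟨fun x hx => prefix_getElem? h (hc.1 x hx), fun x hx => prefix_getElem? h (hc.2 x hx)⟩

/-- the constructed set is computable in `0^(ω)` -/
theorem DD_red (hB : Computable fun x : (ℕ × List Bool) × ℕ => B x.1 x.2) (hwt : Computable wt)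
    (hs : ∀ x m, B x m = true → Split (x, wt m)) : Red (DD B wt) zeroOmega := by
  have key : ∀ b : Bool, REIn zeroOmega fun x : ℕ => ∃ y : ℕ × List Bool,
      y.2 = sg B wt y.1 ∧ y.2[x]? = some b := by
    intro b
    refine REIn.ex (S := fun (x : ℕ) (y : ℕ × List Bool) => y.2 = sg B wt y.1 ∧
      y.2[x]? = some b) ?_
    refine REIn.and ?_ (REIn.of_re (RE.eq (by fun_prop) (by fun_prop)))
    exact (sg_rel B wt hB hwt).comp (f := fun x : ℕ × (ℕ × List Bool) => x.2) (by fun_prop)
  rw [Red_iff]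
  refine ⟨(key true).of_eq fun x => ?_, (key false).of_eq fun x => ?_⟩
  · constructor
    · rintro ⟨⟨k, σ⟩, h1, h2⟩
      simp only at h1 h2
      rw [h1] at h2
      exact ⟨k, h2⟩
    · rintro ⟨k, hk⟩
      exact ⟨(k, sg B wt k), rfl, hk⟩
  · constructor
    · rintro ⟨⟨k, σ⟩, h1, h2⟩
      simp only at h1 h2
      rw [h1] at h2
      intro hcon
      have := (mem_DD hs h2).1 hcon
      simp at this
    · intro hx
      have h2 := sg_length hs (x + 1)
      have h3 : (sg B wt (x + 1))[x]? = some ((sg B wt (x + 1))[x]'(by omega)) :=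
        List.getElem?_eq_getElem (by omega)
      refine ⟨(x + 1, sg B wt (x + 1)), rfl, ?_⟩
      simp only
      rw [h3]
      cases hb : (sg B wt (x + 1))[x]'(by omega)
      · rfl
      · rw [hb] at h3
        exact absurd ((mem_DD hs h3).2 rfl) hx

/-- the constructed set is not computably enumerable -/
theorem DD_not_re (hs : ∀ x m, B x m = true → Split (x, wt m)) :
    ¬ REPred fun x => x ∈ DD B wt := by
  classical
  intro hre
  obtain ⟨g, hg, hgW⟩ := smn (α := Unit) (β := ℕ) (P := fun _ x => x ∈ DD B wt)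
    (RE.comp hre (f := fun x : Unit × ℕ => x.2) (by fun_prop))
  obtain ⟨τ, h1, h2⟩ := stp_ap hs (g ()) (sg B wt (g ()))
  have h3 : (sg B wt (g () + 1))[τ.length]? = some (decide (¬ W (g ()) τ.length)) := by
    rw [show sg B wt (g () + 1) = stp B wt (g ()) (sg B wt (g ())) from rfl, h2]
    simp [ap]
  have h4 := mem_DD hs h3
  rw [← hgW () τ.length] at h4
  rw [show encode τ.length = τ.length from rfl] at h4
  simp only [decide_eq_true_eq] at h4
  tauto

/-- a member of the family which is reducible to the constructed set is computable -/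
theorem Fam_red (hs : ∀ x m, B x m = true → Split (x, wt m))
    (hs' : ∀ x w, Split (x, w) → ∃ m, B x m = true) {S : Set ℕ} {j : ℕ}
    (hS : ∀ c, c ∈ S ↔ Fam j c) (h : Red S (DD B wt)) :
    REPred (fun c => c ∈ S) ∧ REPred (fun c => c ∉ S) := by
  classical
  rw [Red_iff] at h
  obtain ⟨⟨R1, hR1, h1⟩, R2, hR2, h2⟩ := h
  obtain ⟨g1, hg1, hgW1⟩ := smn (α := Unit) (β := ℕ × Info) (P := fun _ x => R1 x.1 x.2)
    (RE.comp hR1 (f := fun x : Unit × (ℕ × Info) => x.2) (by fun_prop))
  obtain ⟨g2, hg2, hgW2⟩ := smn (α := Unit) (β := ℕ × Info) (P := fun _ x => R2 x.1 x.2)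
    (RE.comp hR2 (f := fun x : Unit × (ℕ × Info) => x.2) (by fun_prop))
  set k := Nat.pair j (Nat.pair (g1 ()) (g2 ())) with hk
  have hkj : k.unpair.1 = j := by rw [hk, Nat.unpair_pair]
  -- there is no split above `sg k`
  have hno : ∀ w, ¬ Split ((k, sg B wt k), w) := by
    intro w hw
    have hex := hs' _ _ hw
    have hspl := hs _ _ (Nat.find_spec hex)
    obtain ⟨-, ⟨ha1, ha2⟩, hb1, hb2⟩ := hspl
    simp only [hk, Nat.unpair_pair] at ha1 hb1
    rw [hgW1 ()] at ha1
    rw [hgW2 ()] at hb1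
    have hst : sg B wt (k + 1) = stp B wt k (sg B wt k) := rfl
    unfold stp at hst
    rw [dif_pos hex] at hst
    by_cases hF : Fam k.unpair.1 (wt (Nat.find hex)).2.1
    · rw [if_pos hF] at hst
      have hok : Ok (DD B wt) (wt (Nat.find hex)).2.2.2 := by
        refine ok_of_okS hs (k := k + 1) ?_
        rw [hst]
        exact OkS_mono (ap_prefix _ _) hb2
      have := (h2 _).2 ⟨_, hb1, hok⟩
      rw [hkj] at hF
      exact this ((hS _).2 hF)
    · rw [if_neg hF] at hst
      have hok : Ok (DD B wt) (wt (Nat.find hex)).2.2.1 := by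
        refine ok_of_okS hs (k := k + 1) ?_
        rw [hst]
        exact OkS_mono (ap_prefix _ _) ha2
      have := (h1 _).2 ⟨_, ha1, hok⟩
      rw [hkj] at hF
      exact hF ((hS _).1 this)
  have hno' : ∀ τ0 τ1 a c0 c1, sg B wt k <+: τ0 → sg B wt k <+: τ1 → R1 a c0 → OkS τ0 c0 →
      R2 a c1 → OkS τ1 c1 → False := by
    intro τ0 τ1 a c0 c1 h3 h4 h5 h6 h7 h8
    refine hno ((τ0, τ1), (a, (c0, c1))) ⟨⟨h3, h4⟩, ⟨?_, h6⟩, ?_, h8⟩
    · simp only [hk, Nat.unpair_pair]
      rw [hgW1 ()]; exact h5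
    · simp only [hk, Nat.unpair_pair]
      rw [hgW2 ()]; exact h7
  have hext : ∀ c, Ok (DD B wt) c → ∃ τ, sg B wt k <+: τ ∧ OkS τ c := by
    intro c hc
    obtain ⟨k0, hk0⟩ := okS_of_ok hs hc
    exact ⟨sg B wt (max k k0), sg_mono hs (le_max_left _ _), hk0 _ (le_max_right _ _)⟩
  have hre : ∀ R : ℕ → Info → Prop, REPred (fun x : ℕ × Info => R x.1 x.2) →
      REPred fun a => ∃ y : List Bool × Info, sg B wt k <+: y.1 ∧ OkS y.1 y.2 ∧ R a y.2 := by
    intro R hR
    refine RE.ex (p := fun (a : ℕ) (y : List Bool × Info) => sg B wt k <+: y.1 ∧ OkS y.1 y.2 ∧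
      R a y.2) (RE.and (prefix_re (by fun_prop) (by fun_prop)) (RE.and (OkS_re (by fun_prop)
      (by fun_prop)) ?_))
    exact RE.comp hR (f := fun x : ℕ × (List Bool × Info) => (x.1, x.2.2)) (by fun_prop)
  constructor
  · refine (hre R1 hR1).of_eq fun a => ?_
    constructor
    · rintro ⟨⟨τ, c⟩, h3, h4, h5⟩
      by_contra hcon
      obtain ⟨c1, hc1, hc2⟩ := (h2 a).1 hcon
      obtain ⟨τ1, h6, h7⟩ := hext c1 hc2
      exact hno' τ τ1 a c c1 h3 h6 h5 h4 hc1 h7
    · intro ha
      obtain ⟨c1, hc1, hc2⟩ := (h1 a).1 ha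
      obtain ⟨τ1, h6, h7⟩ := hext c1 hc2
      exact ⟨(τ1, c1), h6, h7, hc1⟩
  · refine (hre R2 hR2).of_eq fun a => ?_
    constructor
    · rintro ⟨⟨τ, c⟩, h3, h4, h5⟩ hcon
      obtain ⟨c1, hc1, hc2⟩ := (h1 a).1 hcon
      obtain ⟨τ1, h6, h7⟩ := hext c1 hc2
      exact hno' τ1 τ a c1 c h6 h3 hc1 h7 h5 h4
    · intro ha
      obtain ⟨c1, hc1, hc2⟩ := (h2 a).1 ha
      obtain ⟨τ1, h6, h7⟩ := hext c1 hc2
      exact ⟨(τ1, c1), h6, h7, hc1⟩

end main

/-- a set which is reducible to a computable set is computably enumerable -/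
theorem re_of_red {S D : Set ℕ} (h1 : REPred fun c => c ∈ S) (h2 : REPred fun c => c ∉ S)
    (h : Red D S) : REPred fun x => x ∈ D := by
  rw [Red_iff] at h
  obtain ⟨⟨R, hR, hD⟩, -⟩ := h
  have : REPred fun a : ℕ => ∃ c : Info, R a c ∧ ((∀ x ∈ c.1, x ∈ S) ∧ ∀ x ∈ c.2, x ∉ S) := by
    refine RE.ex (p := fun (a : ℕ) (c : Info) => R a c ∧
      ((∀ x ∈ c.1, x ∈ S) ∧ ∀ x ∈ c.2, x ∉ S)) (RE.and hR (RE.and ?_ ?_))
    · exact RE.all_mem (p := fun (_ : ℕ × Info) x => x ∈ S) (l := fun x => x.2.1)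
        (RE.comp h1 (f := fun x : (ℕ × Info) × ℕ => x.2) (by fun_prop)) (by fun_prop)
    · exact RE.all_mem (p := fun (_ : ℕ × Info) x => x ∉ S) (l := fun x => x.2.2)
        (RE.comp h2 (f := fun x : (ℕ × Info) × ℕ => x.2) (by fun_prop)) (by fun_prop)
  exact this.of_eq fun a => (hD a).symm

theorem main : ∃ D : Set ℕ, Red D zeroOmega ∧ ∀ (L : Lang) (T : Set Fml), L.IsComputable →
    IsCompleteIn L T → (∃ A, IsComputableStr L A ∧ IsModel L T A) →
    ¬ (Red (codes T) D ∧ Red D (codes T)) := by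
  obtain ⟨B, wt, hB, hwt, hs, hs'⟩ := exists_search
  refine ⟨DD B wt, DD_red hB hwt hs, ?_⟩
  rintro L T hL hT ⟨A, hA, hM⟩ ⟨h1, h2⟩
  obtain ⟨j, hj⟩ := exists_Fam hL hT hA hM
  obtain ⟨h3, h4⟩ := Fam_red hs hs' hj h1
  exact DD_not_re hs (re_of_red h3 h4 h2)

end Pool.Agent.H646R2.OM
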