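import Pool.Agent.H646R2.OM.Defs

set_option autoImplicit false

/-!
Satisfaction in computable structures is uniformly computable in `0^(ω)`.
-/

namespace Pool.Agent.H646R2.OM

open Pool.Agent.Helper750.DC Pool.Agent.Helper750.CT
open Pool.Agent.Helper578.JD Pool.Agent.Helper578.JD.Oracle
open Encodable

/-- codes of lists -/
abbrev ol (n : ℕ) : List ℕ := Denumerable.ofNat (List ℕ) n

/-- satisfaction, with codes of formulas, up to depth `n`, where the atomic facts are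
enumerated by `W j` -/
def Sx (j : ℕ) : ℕ → ℕ → List ℕ → Prop
  | 0, _, _ => False
  | n + 1, c, as =>
    (c.unpair.1 = 0 ∧ W j (encode (2 * c.unpair.2.unpair.1,
      ((ol c.unpair.2.unpair.2).map (Th_K_as as), 0)))) ∨
    (c.unpair.1 = 1 ∧ W j (encode (2 * c.unpair.2.unpair.1 + 1,
      ((ol c.unpair.2.unpair.2.unpair.2).map (Th_K_as as),
        Th_K_as as c.unpair.2.unpair.2.unpair.1)))) ∨
    (c.unpair.1 = 2 ∧ Th_K_as as c.unpair.2.unpair.1 = Th_K_as as c.unpair.2.unpair.2) ∨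
    (c.unpair.1 = 3 ∧ ¬ Sx j n c.unpair.2 as) ∨
    (c.unpair.1 = 4 ∧ Sx j n c.unpair.2.unpair.1 as ∧ Sx j n c.unpair.2.unpair.2 as) ∨
    (5 ≤ c.unpair.1 ∧ ∃ a, Sx j n c.unpair.2 (Th_K_up as (c.unpair.1 - 5) a))

/-- one step of the definition of `Sx`, with information on the previous level given through the
reduction `f` -/
def Px (f : ℕ × (ℕ × (ℕ × List ℕ)) → ℕ) (x : (ℕ × (ℕ × (ℕ × List ℕ))) × Info) : Prop :=
  x.1.1 ≠ 0 ∧ (
    (x.1.2.2.1.unpair.1 = 0 ∧ W x.1.2.1 (encode (2 * x.1.2.2.1.unpair.2.unpair.1,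
      ((ol x.1.2.2.1.unpair.2.unpair.2).map (Th_K_as x.1.2.2.2), 0)))) ∨
    (x.1.2.2.1.unpair.1 = 1 ∧ W x.1.2.1 (encode (2 * x.1.2.2.1.unpair.2.unpair.1 + 1,
      ((ol x.1.2.2.1.unpair.2.unpair.2.unpair.2).map (Th_K_as x.1.2.2.2),
        Th_K_as x.1.2.2.2 x.1.2.2.1.unpair.2.unpair.2.unpair.1)))) ∨
    (x.1.2.2.1.unpair.1 = 2 ∧ Th_K_as x.1.2.2.2 x.1.2.2.1.unpair.2.unpair.1 =
      Th_K_as x.1.2.2.2 x.1.2.2.1.unpair.2.unpair.2) ∨
    (x.1.2.2.1.unpair.1 = 3 ∧
      f (x.1.1 - 1, (x.1.2.1, (x.1.2.2.1.unpair.2, x.1.2.2.2))) ∈ x.2.2) ∨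
    (x.1.2.2.1.unpair.1 = 4 ∧
      f (x.1.1 - 1, (x.1.2.1, (x.1.2.2.1.unpair.2.unpair.1, x.1.2.2.2))) ∈ x.2.1 ∧
      f (x.1.1 - 1, (x.1.2.1, (x.1.2.2.1.unpair.2.unpair.2, x.1.2.2.2))) ∈ x.2.1) ∨
    (5 ≤ x.1.2.2.1.unpair.1 ∧ ∃ a, f (x.1.1 - 1, (x.1.2.1, (x.1.2.2.1.unpair.2,
      Th_K_up x.1.2.2.2 (x.1.2.2.1.unpair.1 - 5) a))) ∈ x.2.1))

theorem ol_comp {α : Type*} [Primcodable α] {f : α → ℕ} (hf : Computable f) :
    Computable fun x => ol (f x) := (Computable.ofNat (List ℕ)).comp hf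

section
variable {α : Type*} [Primcodable α]
@[fun_prop] theorem as_comp {f : α → List ℕ} {g : α → ℕ} (hf : Computable f)
    (hg : Computable g) : Computable fun x => Th_K_as (f x) (g x) := Th_K_cas hf hg
@[fun_prop] theorem up_comp {f : α → List ℕ} {g h : α → ℕ} (hf : Computable f)
    (hg : Computable g) (hh : Computable h) : Computable fun x => Th_K_up (f x) (g x) (h x) :=
  Th_K_cup hf hg hh
@[fun_prop] theorem map_comp {f g : α → List ℕ} (hf : Computable f)
    (hg : Computable g) : Computable fun x => (f x).map (Th_K_as (g x)) := Th_K_cmap hf hg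
@[fun_prop] theorem olc_comp {f : α → ℕ} (hf : Computable f) :
    Computable fun x => (Denumerable.ofNat (List ℕ) (f x)) := (Computable.ofNat (List ℕ)).comp hf
end

/-- the recursion theorem gives a uniform reduction -/
theorem exists_red : ∃ f : ℕ × (ℕ × (ℕ × List ℕ)) → ℕ, Computable f ∧
    ∀ x c, W (f x) (encode c) ↔ Px f (x, c) := by
  -- parameter theorem for the universal predicate
  obtain ⟨g, hg, hgW⟩ := smn (α := ℕ × (ℕ × (ℕ × (ℕ × List ℕ)))) (β := Info)
    (P := fun x c => W x.1 (encode (x.2, c)))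
    (RE.comp W_re (f := fun x : (ℕ × (ℕ × (ℕ × (ℕ × List ℕ)))) × Info =>
      (x.1.1, encode (x.1.2, x.2))) (by fun_prop))
  have hgc : ∀ {α : Type} [Primcodable α] {h1 : α → ℕ} {h2 : α → ℕ × (ℕ × (ℕ × List ℕ))},
      Computable h1 → Computable h2 → Computable fun a => g (h1 a, h2 a) :=
    fun {α} _ {h1 h2} a b => hg.comp (a.pair b)
  obtain ⟨r, hr⟩ := recursion (β := (ℕ × (ℕ × (ℕ × List ℕ))) × Info)
    (P := fun r x => Px (fun y => g (r, y)) x) (by
      unfold Px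
      refine RE.and (RE.ne (by fun_prop) (by fun_prop)) ?_
      refine RE.or (RE.and (RE.eq (by fun_prop) (by fun_prop)) ?_) ?_
      · refine RE.comp W_re (f := fun x : ℕ × ((ℕ × (ℕ × (ℕ × List ℕ))) × Info) =>
          (x.2.1.2.1, encode (2 * x.2.1.2.2.1.unpair.2.unpair.1,
            ((ol x.2.1.2.2.1.unpair.2.unpair.2).map (Th_K_as x.2.1.2.2.2), 0)))) (by fun_prop)
      refine RE.or (RE.and (RE.eq (by fun_prop) (by fun_prop)) ?_) ?_
      · refine RE.comp W_re (f := fun x : ℕ × ((ℕ × (ℕ × (ℕ × List ℕ))) × Info) =>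
          (x.2.1.2.1, encode (2 * x.2.1.2.2.1.unpair.2.unpair.1 + 1,
            ((ol x.2.1.2.2.1.unpair.2.unpair.2.unpair.2).map (Th_K_as x.2.1.2.2.2),
              Th_K_as x.2.1.2.2.2 x.2.1.2.2.1.unpair.2.unpair.2.unpair.1)))) (by fun_prop)
      refine RE.or (RE.and (RE.eq (by fun_prop) (by fun_prop))
        (RE.eq (by fun_prop) (by fun_prop))) ?_
      refine RE.or (RE.and (RE.eq (by fun_prop) (by fun_prop))
        (RE.mem_list (hgc (by fun_prop) (by fun_prop)) (by fun_prop))) ?_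
      refine RE.or (RE.and (RE.eq (by fun_prop) (by fun_prop))
        (RE.and (RE.mem_list (hgc (by fun_prop) (by fun_prop)) (by fun_prop))
        (RE.mem_list (hgc (by fun_prop) (by fun_prop)) (by fun_prop)))) ?_
      refine RE.and (RE.le (by fun_prop) (by fun_prop)) ?_
      refine RE.ex (p := fun (x : ℕ × ((ℕ × (ℕ × (ℕ × List ℕ))) × Info)) (a : ℕ) =>
        g (x.1, (x.2.1.1 - 1, (x.2.1.2.1, (x.2.1.2.2.1.unpair.2,
          Th_K_up x.2.1.2.2.2 (x.2.1.2.2.1.unpair.1 - 5) a)))) ∈ x.2.2.1) ?_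
      exact RE.mem_list (hgc (by fun_prop) (by fun_prop)) (by fun_prop))
  refine ⟨fun y => g (r, y), hgc (Computable.const r) Computable.id, fun x c => ?_⟩
  rw [hgW (r, x) c, hr (x, c)]

theorem Sx_iff {f : ℕ × (ℕ × (ℕ × List ℕ)) → ℕ}
    (hf : ∀ x c, W (f x) (encode c) ↔ Px f (x, c)) (j n : ℕ) :
    ∀ c as, Sx j n c as ↔ f (n, (j, (c, as))) ∈ zeroJ (n + 1) := by
  induction n with
  | zero =>
    intro c as
    constructor
    · intro h; exact h.elim
    · rintro ⟨i, -, hi⟩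
      rw [hf] at hi
      exact hi.1 rfl
  | succ n ih =>
    intro c as
    have h0 : f (n + 1, (j, (c, as))) ∈ zeroJ (n + 1 + 1) ↔
        ∃ i : Info, Ok (zeroJ (n + 1)) i ∧ W (f (n + 1, (j, (c, as)))) (encode i) := Iff.rfl
    rw [h0]
    simp only [hf]
    constructor
    · rintro (h | h | h | h | h | h)
      · exact ⟨([], []), ⟨by simp, by simp⟩, by simp, Or.inl h⟩
      · exact ⟨([], []), ⟨by simp, by simp⟩, by simp, Or.inr (Or.inl h)⟩
      · exact ⟨([], []), ⟨by simp, by simp⟩, by simp, Or.inr (Or.inr (Or.inl h))⟩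
      · refine ⟨([], [f (n, (j, (c.unpair.2, as)))]), ⟨by simp, ?_⟩, by simp,
          Or.inr (Or.inr (Or.inr (Or.inl ⟨h.1, ?_⟩)))⟩
        · intro x hx
          simp only [List.mem_singleton] at hx
          rw [hx, ← ih]
          exact h.2
        · simp
      · refine ⟨([f (n, (j, (c.unpair.2.unpair.1, as))), f (n, (j, (c.unpair.2.unpair.2, as)))],
          []), ⟨?_, by simp⟩, by simp, Or.inr (Or.inr (Or.inr (Or.inr (Or.inl ⟨h.1, ?_, ?_⟩))))⟩
        · intro x hx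
          simp only [List.mem_cons, List.not_mem_nil, or_false] at hx
          rcases hx with hx | hx
          · rw [hx, ← ih]; exact h.2.1
          · rw [hx, ← ih]; exact h.2.2
        · simp
        · simp
      · obtain ⟨h1, a, ha⟩ := h
        refine ⟨([f (n, (j, (c.unpair.2, Th_K_up as (c.unpair.1 - 5) a)))], []),
          ⟨?_, by simp⟩, by simp, Or.inr (Or.inr (Or.inr (Or.inr (Or.inr ⟨h1, a, ?_⟩))))⟩
        · intro x hx
          simp only [List.mem_singleton] at hx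
          rw [hx, ← ih]
          exact ha
        · simp
    · rintro ⟨i, hi, -, h⟩
      simp only [Nat.add_sub_cancel] at h
      rcases h with h | h | h | h | h | h
      · exact Or.inl h
      · exact Or.inr (Or.inl h)
      · exact Or.inr (Or.inr (Or.inl h))
      · refine Or.inr (Or.inr (Or.inr (Or.inl ⟨h.1, ?_⟩)))
        rw [ih]
        exact hi.2 _ h.2
      · refine Or.inr (Or.inr (Or.inr (Or.inr (Or.inl ⟨h.1, ?_, ?_⟩))))
        · rw [ih]; exact hi.1 _ h.2.1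
        · rw [ih]; exact hi.1 _ h.2.2
      · obtain ⟨h1, a, ha⟩ := h
        refine Or.inr (Or.inr (Or.inr (Or.inr (Or.inr ⟨h1, a, ?_⟩))))
        rw [ih]
        exact hi.1 _ ha

/-- `Sx` is computable in `0^(ω)`. -/
theorem Sx_comp : REIn zeroOmega (fun x : ℕ × (ℕ × (ℕ × List ℕ)) => Sx x.2.1 x.1 x.2.2.1 x.2.2.2) ∧
    REIn zeroOmega (fun x : ℕ × (ℕ × (ℕ × List ℕ)) => ¬ Sx x.2.1 x.1 x.2.2.1 x.2.2.2) := by
  obtain ⟨f, hf, h⟩ := exists_red
  have hc : Computable fun x : ℕ × (ℕ × (ℕ × List ℕ)) => Nat.pair (x.1 + 1) (f x) := by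
    have := hf
    fun_prop
  have key : ∀ x : ℕ × (ℕ × (ℕ × List ℕ)), Nat.pair (x.1 + 1) (f x) ∈ zeroOmega ↔
      Sx x.2.1 x.1 x.2.2.1 x.2.2.2 := by
    rintro ⟨n, j, c, as⟩
    rw [Sx_iff h]
    unfold zeroOmega
    rw [Set.mem_ofPred_eq, Nat.unpair_pair]
  exact ⟨(REIn.mem hc).of_eq key, (REIn.not_mem hc).of_eq fun x => not_congr (key x)⟩

/-- r.e. sets are computable in `0^(ω)` -/
theorem re_comp {α : Type*} [Primcodable α] {S : α → Prop} (hS : REPred S) :
    REIn zeroOmega (fun x => ¬ S x) := by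
  obtain ⟨f, hf, h⟩ := REIn_iff_jump.1 (REIn.of_re (A := (∅ : Set ℕ)) hS)
  have hc : Computable fun x => Nat.pair 1 (f x) := by fun_prop
  refine (REIn.not_mem (A := zeroOmega) hc).of_eq fun x => ?_
  rw [h x]
  unfold zeroOmega
  rw [Set.mem_ofPred_eq, Nat.unpair_pair]
  rfl

/-- depth of a formula -/
def dep : Fml → ℕ
  | .rel _ _ => 0
  | .fn _ _ _ => 0
  | .eq _ _ => 0
  | .not φ => dep φ + 1
  | .and φ ψ => max (dep φ) (dep ψ) + 1
  | .ex _ φ => dep φ + 1

theorem dep_le : ∀ φ : Fml, dep φ ≤ φ.code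
  | .rel _ _ => Nat.zero_le _
  | .fn _ _ _ => Nat.zero_le _
  | .eq _ _ => Nat.zero_le _
  | .not φ => by
    have h1 := dep_le φ
    have h2 := Nat.add_le_pair 3 φ.code
    simp only [dep, Fml.code]
    omega
  | .and φ ψ => by
    have h1 := dep_le φ
    have h3 := dep_le ψ
    have h2 := Nat.add_le_pair 4 (Nat.pair φ.code ψ.code)
    have h4 := Nat.left_le_pair φ.code ψ.code
    have h5 := Nat.right_le_pair φ.code ψ.code
    simp only [dep, Fml.code]
    omega
  | .ex v φ => by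
    have h1 := dep_le φ
    have h2 := Nat.add_le_pair (5 + v) φ.code
    simp only [dep, Fml.code]
    omega

/-- the atomic facts of a structure -/
def At (L : Lang) (S : Str) (x : ℕ × (List ℕ × ℕ)) : Prop :=
  (x.1 % 2 = 0 ∧ L.rel (x.1 / 2) = some x.2.1.length ∧ S.R (x.1 / 2) x.2.1) ∨
  (x.1 % 2 = 1 ∧ L.fn (x.1 / 2) = some x.2.1.length ∧ S.F (x.1 / 2) x.2.1 = x.2.2)

theorem Sx_sat (L : Lang) (S : Str) (j : ℕ) (hj : ∀ x, W j (encode x) ↔ At L S x) :
    ∀ (φ : Fml) (n : ℕ) (as : List ℕ), dep φ < n →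
      (Sx j n φ.code as ↔ Sat L S φ (Th_K_as as)) := by
  intro φ
  induction φ with
  | rel i vs =>
    intro n as hn
    obtain ⟨n, rfl⟩ := Nat.exists_eq_succ_of_ne_zero (by omega : n ≠ 0)
    have e1 : (2 * i) % 2 = 0 := by omega
    have e2 : (2 * i) / 2 = i := by omega
    have h := hj (2 * i, (vs.map (Th_K_as as), 0))
    simp only [Sx, Fml.code, ol, Nat.unpair_pair, Denumerable.ofNat_encode, h, At, e1, e2, Sat,
      List.length_map]
    simp
  | fn i vs w =>
    intro n as hn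
    obtain ⟨n, rfl⟩ := Nat.exists_eq_succ_of_ne_zero (by omega : n ≠ 0)
    have e1 : (2 * i + 1) % 2 = 1 := by omega
    have e2 : (2 * i + 1) / 2 = i := by omega
    have h := hj (2 * i + 1, (vs.map (Th_K_as as), Th_K_as as w))
    simp only [Sx, Fml.code, ol, Nat.unpair_pair, Denumerable.ofNat_encode, h, At, e1, e2, Sat,
      List.length_map]
    simp
  | eq v w =>
    intro n as hn
    obtain ⟨n, rfl⟩ := Nat.exists_eq_succ_of_ne_zero (by omega : n ≠ 0)
    simp [Sx, Fml.code, Sat]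
  | not φ ih =>
    intro n as hn
    obtain ⟨n, rfl⟩ := Nat.exists_eq_succ_of_ne_zero (by omega : n ≠ 0)
    have := ih n as (by simp only [dep] at hn; omega)
    simp [Sx, Fml.code, Sat, this]
  | and φ ψ ih1 ih2 =>
    intro n as hn
    obtain ⟨n, rfl⟩ := Nat.exists_eq_succ_of_ne_zero (by omega : n ≠ 0)
    have h1 := ih1 n as (by simp only [dep] at hn; omega)
    have h2 := ih2 n as (by simp only [dep] at hn; omega)
    simp [Sx, Fml.code, Sat, h1, h2]
  | ex v φ ih =>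
    intro n as hn
    obtain ⟨n, rfl⟩ := Nat.exists_eq_succ_of_ne_zero (by omega : n ≠ 0)
    have h1 : ∀ a, Sx j n φ.code (Th_K_up as v a) ↔
        Sat L S φ (Function.update (Th_K_as as) v a) := by
      intro a
      rw [ih n (Th_K_up as v a) (by simp only [dep] at hn; omega), Th_K_as_up]
    have e0 : ¬ (5 + v = 0) := by omega
    have e1 : ¬ (5 + v = 1) := by omega
    have e2 : ¬ (5 + v = 2) := by omega
    have e3 : ¬ (5 + v = 3) := by omega
    have e4 : ¬ (5 + v = 4) := by omega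
    have e5 : 5 + v - 5 = v := by omega
    simp only [Sx, Fml.code, Sat, Nat.unpair_pair, e0, e1, e2, e3, e4, false_and, false_or, e5, h1]
    constructor
    · exact fun h => h.2
    · exact fun h => ⟨by omega, h⟩

theorem At_re {L : Lang} {S : Str} (hL : L.IsComputable) (hS : IsComputableStr L S) :
    REPred (At L S) := by
  obtain ⟨hL1, hL2⟩ := hL
  obtain ⟨⟨d, hd, hd'⟩, e, he, he'⟩ := hS
  have hm : ∀ k : ℕ, REPred fun x : ℕ × (List ℕ × ℕ) => x.1 % 2 = k := fun k =>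
    RE.eq (Primrec.nat_mod.to_comp.comp (by fun_prop) (by fun_prop)) (by fun_prop)
  have hdiv : Computable fun x : ℕ × (List ℕ × ℕ) => x.1 / 2 :=
    Primrec.nat_div.to_comp.comp (by fun_prop) (by fun_prop)
  have h1 : REPred fun x : ℕ × (List ℕ × ℕ) =>
      (x.1 % 2 = 0 ∧ L.rel (x.1 / 2) = some x.2.1.length ∧ d (x.1 / 2, x.2.1) = true) ∨
      (x.1 % 2 = 1 ∧ L.fn (x.1 / 2) = some x.2.1.length ∧ e (x.1 / 2, x.2.1) = x.2.2) := by
    refine RE.or (RE.and (hm 0) (RE.and (RE.eq (hL1.comp hdiv) (by fun_prop))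
      (RE.eq (hd.comp (hdiv.pair (by fun_prop))) (by fun_prop))))
      (RE.and (hm 1) (RE.and (RE.eq (hL2.comp hdiv) (by fun_prop))
      (RE.eq (he.comp (hdiv.pair (by fun_prop))) (by fun_prop))))
  refine h1.of_eq fun x => ?_
  unfold At
  constructor
  · rintro (⟨a, b, c⟩ | ⟨a, b, c⟩)
    · exact Or.inl ⟨a, b, (hd' _ _ b).1 c⟩
    · exact Or.inr ⟨a, b, by rw [← he' _ _ b]; exact c⟩
  · rintro (⟨a, b, c⟩ | ⟨a, b, c⟩)
    · exact Or.inl ⟨a, b, (hd' _ _ b).2 c⟩
    · exact Or.inr ⟨a, b, by rw [he' _ _ b]; exact c⟩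

/-- the sentences of a computable language form an r.e. set -/
theorem InL_re {L : Lang} (hL : L.IsComputable) :
    ∃ r : ℕ, ∀ φ : Fml, W r φ.code ↔ (IsSent φ ∧ InL L φ) := by
  obtain ⟨hL1, hL2⟩ := hL
  obtain ⟨r, hr⟩ := recursion (β := ℕ) (P := fun r c =>
    (c.unpair.1 = 0 ∧ L.rel c.unpair.2.unpair.1 = some (ol c.unpair.2.unpair.2).length) ∨
    (c.unpair.1 = 1 ∧ L.fn c.unpair.2.unpair.1 =
      some (ol c.unpair.2.unpair.2.unpair.2).length) ∨
    (c.unpair.1 = 2) ∨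
    (c.unpair.1 = 3 ∧ W r c.unpair.2) ∨
    (c.unpair.1 = 4 ∧ W r c.unpair.2.unpair.1 ∧ W r c.unpair.2.unpair.2) ∨
    (5 ≤ c.unpair.1 ∧ W r c.unpair.2)) (by
      refine RE.or (RE.and (RE.eq (by fun_prop) (by fun_prop))
        (RE.eq (hL1.comp (by fun_prop)) (by fun_prop))) ?_
      refine RE.or (RE.and (RE.eq (by fun_prop) (by fun_prop))
        (RE.eq (hL2.comp (by fun_prop)) (by fun_prop))) ?_
      refine RE.or (RE.eq (by fun_prop) (by fun_prop)) ?_
      refine RE.or (RE.and (RE.eq (by fun_prop) (by fun_prop)) ?_) ?_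
      · exact RE.comp W_re (f := fun x : ℕ × ℕ => (x.1, x.2.unpair.2)) (by fun_prop)
      refine RE.or (RE.and (RE.eq (by fun_prop) (by fun_prop)) (RE.and ?_ ?_)) ?_
      · exact RE.comp W_re (f := fun x : ℕ × ℕ => (x.1, x.2.unpair.2.unpair.1)) (by fun_prop)
      · exact RE.comp W_re (f := fun x : ℕ × ℕ => (x.1, x.2.unpair.2.unpair.2)) (by fun_prop)
      refine RE.and (RE.le (by fun_prop) (by fun_prop)) ?_
      exact RE.comp W_re (f := fun x : ℕ × ℕ => (x.1, x.2.unpair.2)) (by fun_prop))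
  have hr' : ∀ φ : Fml, W r φ.code ↔ InL L φ := by
    intro φ
    induction φ with
    | rel i vs =>
      have := hr (Fml.rel i vs).code
      rw [show encode (Fml.rel i vs).code = (Fml.rel i vs).code from rfl] at this
      rw [this]
      simp [Fml.code, InL, ol]
    | fn i vs w =>
      have := hr (Fml.fn i vs w).code
      rw [show encode (Fml.fn i vs w).code = (Fml.fn i vs w).code from rfl] at this
      rw [this]
      simp [Fml.code, InL, ol]
    | eq v w =>
      have := hr (Fml.eq v w).code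
      rw [show encode (Fml.eq v w).code = (Fml.eq v w).code from rfl] at this
      rw [this]
      simp [Fml.code, InL]
    | not φ ih =>
      have := hr (Fml.not φ).code
      rw [show encode (Fml.not φ).code = (Fml.not φ).code from rfl] at this
      rw [this]
      simp [Fml.code, InL, ih]
    | and φ ψ ih1 ih2 =>
      have := hr (Fml.and φ ψ).code
      rw [show encode (Fml.and φ ψ).code = (Fml.and φ ψ).code from rfl] at this
      rw [this]
      simp [Fml.code, InL, ih1, ih2]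
    | ex v φ ih =>
      have := hr (Fml.ex v φ).code
      rw [show encode (Fml.ex v φ).code = (Fml.ex v φ).code from rfl] at this
      rw [this]
      have e0 : ¬ (5 + v = 0) := by omega
      have e1 : ¬ (5 + v = 1) := by omega
      have e2 : ¬ (5 + v = 2) := by omega
      have e3 : ¬ (5 + v = 3) := by omega
      have e4 : ¬ (5 + v = 4) := by omega
      have e5 : 5 ≤ 5 + v := by omega
      simp only [Fml.code, InL, Nat.unpair_pair, e0, e1, e2, e3, e4, e5, false_and, false_or, ih,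
        true_and]
  obtain ⟨s, hs, hs'⟩ := Th_K_sent
  have h2 : REPred fun c : ℕ => s c = true ∧ W r c :=
    RE.and (RE.eq (hs.comp (by fun_prop)) (by fun_prop))
      (RE.comp W_re (f := fun x : ℕ => (r, x)) (by fun_prop))
  obtain ⟨g, hg, hgW⟩ := smn (α := Unit) (β := ℕ) (P := fun _ c => s c = true ∧ W r c)
    (RE.comp h2 (f := fun x : Unit × ℕ => x.2) (by fun_prop))
  refine ⟨g (), fun φ => ?_⟩
  have := hgW () φ.code
  rw [show encode φ.code = φ.code from rfl] at this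
  rw [this, hs' φ, hr' φ]

/-- the `j`-th set of the family which contains the theories of the computable structures -/
def Fam (j c : ℕ) : Prop := W j.unpair.2 c ∧ Sx j.unpair.1 (c + 1) c []

theorem Fam_comp : REIn zeroOmega (fun x : ℕ × ℕ => Fam x.1 x.2) ∧
    REIn zeroOmega (fun x : ℕ × ℕ => ¬ Fam x.1 x.2) := by
  have h1 : REPred fun x : ℕ × ℕ => W x.1.unpair.2 x.2 :=
    RE.comp W_re (f := fun x : ℕ × ℕ => (x.1.unpair.2, x.2)) (by fun_prop)
  have hc : Computable fun x : ℕ × ℕ => (x.2 + 1, (x.1.unpair.1, (x.2, ([] : List ℕ)))) := by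
    fun_prop
  obtain ⟨h2, h3⟩ := Sx_comp
  refine ⟨REIn.and (REIn.of_re h1) (h2.comp hc), ?_⟩
  refine (REIn.or (re_comp h1) (h3.comp hc)).of_eq fun x => ?_
  unfold Fam
  tauto

theorem mem_codes_iff (T : Set Fml) (φ : Fml) : φ.code ∈ codes T ↔ φ ∈ T := by
  constructor
  · rintro ⟨ψ, h1, h2⟩
    rwa [FO.code_inj _ _ h2] at h1
  · intro h; exact ⟨φ, h, rfl⟩

/-- the theories of the computable structures are in the family -/
theorem exists_Fam {L : Lang} {T : Set Fml} {A : Str} (hL : L.IsComputable)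
    (hT : IsCompleteIn L T) (hA : IsComputableStr L A) (hM : IsModel L T A) :
    ∃ j, ∀ c, c ∈ codes T ↔ Fam j c := by
  obtain ⟨r, hr⟩ := InL_re hL
  obtain ⟨g, hg, hgW⟩ := smn (α := Unit) (β := ℕ × (List ℕ × ℕ)) (P := fun _ x => At L A x)
    (RE.comp (At_re hL hA) (f := fun x : Unit × (ℕ × (List ℕ × ℕ)) => x.2) (by fun_prop))
  refine ⟨Nat.pair (g ()) r, fun c => ?_⟩
  obtain ⟨φ, rfl⟩ := FO.code_surj c
  unfold Fam
  rw [mem_codes_iff, Nat.unpair_pair, hr φ,
    Sx_sat L A (g ()) (hgW ()) φ (φ.code + 1) [] (Nat.lt_succ_of_le (dep_le φ))]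
  have h0 : Th_K_as [] = fun _ => 0 := by funext i; simp [Th_K_as]
  rw [h0]
  constructor
  · intro h
    exact ⟨hT.1 φ h, hM φ h⟩
  · rintro ⟨⟨h1, h2⟩, h3⟩
    by_contra h4
    exact hM _ ((hT.2 φ h1 h2).1 h4) h3

end Pool.Agent.H646R2.OM
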